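import Pool.Agent.helper77.MC.Spec

set_option autoImplicit false

namespace Pool.Agent.helper77.MC

open Finset Numbering

theorem AN (h1 : CR_stmt) : AN_stmt := by
  intro ε hε
  by_cases hε2 : 1 / 2 ≤ ε
  · refine ⟨6, le_refl _, fun n k hn h3 hk => ?_⟩
    exfalso
    have hn' : (6 : ℝ) ≤ n := by exact_mod_cast hn
    nlinarith
  · rw [not_le] at hε2
    obtain ⟨r, hr⟩ : ∃ r : ℝ, r = (1 / 2 - ε) / (1 / 2 + ε) := ⟨_, rfl⟩
    have hr0 : 0 < r := by
      rw [hr]
      apply div_pos <;> linarith
    have hr1 : r < 1 := by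
      rw [hr, div_lt_one (by linarith)]
      linarith
    have hre : r * (1 / 2 + ε) = 1 / 2 - ε := by
      rw [hr, div_mul_cancel₀]
      linarith
    have hgap : 0 < 2 - r - r ^ 2 := by nlinarith
    obtain ⟨N, hN⟩ := exists_pow_lt_of_lt_one hgap hr1
    refine ⟨max 6 (6 * N + 12), le_max_left _ _, fun n k hn h3 hk => ?_⟩
    have hn6 : 6 ≤ n := le_trans (le_max_left _ _) hn
    have hnN : 6 * N + 12 ≤ n := le_trans (le_max_right _ _) hn
    have hnNR : 6 * (N : ℝ) + 12 ≤ n := by exact_mod_cast hnN
    have hn0 : (0 : ℝ) < n := by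
      have : 0 < n := by omega
      exact_mod_cast this
    have hkN : 2 * N + 4 ≤ k := by
      have : (2 * (N : ℝ) + 4) ≤ k := by linarith
      exact_mod_cast this
    have hkn : k < n := by
      have : (k : ℝ) < n := by nlinarith
      exact_mod_cast this
    have ek : ((k - 1 : ℕ) : ℝ) = (k : ℝ) - 1 := by
      rw [Nat.cast_sub (by omega)]
      simp
    have en : ((n - 2 : ℕ) : ℝ) = (n : ℝ) - 2 := by
      rw [Nat.cast_sub (by omega)]
      simp
    have hcr := h1 (n - 2) (k - 1) r hr0 hr1.le (by omega) (by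
      rw [ek, en]
      have e : (n : ℝ) - 2 + 1 - ((k : ℝ) - 1) = n - k := by ring
      rw [e]
      have h4 : (1 / 2 + ε) * n ≤ n - k := by linarith
      have h5 := mul_le_mul_of_nonneg_left h4 hr0.le
      have h6 : r * ((1 / 2 + ε) * n) = (1 / 2 - ε) * n := by rw [← hre]; ring
      linarith)
    obtain ⟨w, hw⟩ : ∃ w : ℝ, w = ((n - 2).choose (k - 1) : ℝ) := ⟨_, rfl⟩
    have hw0 : 0 ≤ w := by rw [hw]; exact Nat.cast_nonneg _
    have hb : ∀ j, j ≤ k - 1 → ∀ e, e ≤ k - 1 - j → ((n - 2).choose j : ℝ) ≤ r ^ e * w := by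
      intro j hj e he
      have h4 := hcr j (k - 1 - j) (by omega)
      have h5 : j + (k - 1 - j) = k - 1 := by omega
      rw [h5, ← hw] at h4
      have h6 : r ^ (k - 1 - j) ≤ r ^ e := pow_le_pow_of_le_one hr0.le hr1.le he
      exact h4.trans (mul_le_mul_of_nonneg_right h6 hw0)
    have hb0 : ∀ j, j ≤ k - 1 → ((n - 2).choose j : ℝ) ≤ w := by
      intro j hj
      have := hb j hj 0 (by omega)
      simpa using this
    refine ⟨?_, ?_, ?_⟩
    · intro j hj
      rw [← hw]
      exact hb0 j hj
    · intro j hj a ha haj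
      rw [← hw]
      have b1 := hb j (by omega) 1 (by omega)
      rw [pow_one] at b1
      have hsum : (r + (r ^ 2 + r ^ N)) * w ≤ 2 * w :=
        mul_le_mul_of_nonneg_right (by linarith) hw0
      rcases le_total a (j - a) with h | h
      · have b2 := hb a (by omega) N (by omega)
        have b3 := hb (j - a) (by omega) 2 (by omega)
        nlinarith
      · have b2 := hb a (by omega) 2 (by omega)
        have b3 := hb (j - a) (by omega) N (by omega)
        nlinarith
    · intro j hj
      rw [← hw]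
      obtain ⟨m, hm⟩ : ∃ m, n = m + 2 := ⟨n - 2, by omega⟩
      have e1 : n - 1 = (n - 2) + 1 := by omega
      rcases Nat.eq_zero_or_pos j with h | h
      · rw [h, Nat.choose_zero_right]
        have := hb0 0 (by omega)
        rw [Nat.choose_zero_right] at this
        push_cast at this ⊢
        linarith
      · obtain ⟨i, rfl⟩ : ∃ i, j = i + 1 := ⟨j - 1, by omega⟩
        rw [e1, Nat.choose_succ_succ]
        have b1 := hb0 i (by omega)
        have b2 := hb0 (i + 1) hj
        push_cast
        linarith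

end Pool.Agent.helper77.MC
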